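import Pool.Agent.H838R2.SL.T3
import Pool.Agent.H838R2.SL.T5
import Pool.Agent.H838R2.SL.T9
import Pool.Agent.H838R2.SL.T10

/-!
# Finite type invariants of string links, Milnor invariants and free groups

For all `k ≥ 2` and `n ≥ 2` there is an invariant of `k`-strand string links of order `≤ n` which is
not the sum of a polynomial in Milnor invariants of order `≤ n` and an invariant of order `≤ n`
vanishing at all string links with free group.  So the answer to Q2 is no, for every `k ≥ 2` and for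
every order `n ≥ 2`.

The definitions are in `Pool.Agent.H838R2.SL.Defs` and `Pool.Agent.H835R2.Knot.Defs`.

The proof: for every invariant of order `≤ 2` the values at the string links `L`, `L'`, `J₀`, `J₁`
(see `Pool.Agent.H838R2.SL.Stubs`) satisfy `v L - v L' = v J₀ - v J₁`; the groups of `L` and `L'` are
free; Milnor invariants do not distinguish `J₀` and `J₁` (the first strand of `J₀` is a trefoil, `J₁`
is trivial), also if full twists of the first two strands are multiplied to both; the Jones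
polynomial does. Multiplication with full twists reduces the order `n` to the order two.
-/

set_option autoImplicit false

namespace Pool.Agent.Results.MP_8b9055_gt.FreeComplement

open Pool.Agent.H838R2.SL

/-- Milnor invariants do not distinguish `J₀` and `J₁`, nor their products with full twists. -/
theorem milnor_eq {k : ℕ} (hk : 2 ≤ k) (h₀ : IsStringLink k J₀) (h₁ : IsStringLink k J₁) (i : ℕ)
    {μ : StringLink k → ℚ} (hμ : IsMilnor k μ) :
    μ (mk (J₀ ++ tw i) (sl_tw hk i h₀)) = μ (mk (J₁ ++ tw i) (sl_tw hk i h₁)) := by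
  obtain ⟨I, j, hI⟩ := hμ
  obtain ⟨w, hw⟩ := long_tw hk h₀ h₁ i j
  have key : ∀ (D : _) (_ : D = J₀ ∨ D = J₁) (h : IsStringLink k (D ++ tw i)),
      μ (mk (D ++ tw i) h) = magnus I w := by
    intro D hD h
    obtain ⟨⟨l, hl⟩, hl'⟩ := hw D hD
    exact hI (D ++ tw i) h l hl w (hl' l hl _)
  rw [key J₀ (Or.inl rfl), key J₁ (Or.inr rfl)]

/-- **Theorem.** `Mₙ + Nₙ ≠ Vₙ` for `k`-strand string links, for all `k ≥ 2` and `n ≥ 2`. -/
theorem result : ∀ k, 2 ≤ k → ∀ n, 2 ≤ n → M k n ⊔ N k n ≠ V k n := by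
  intro k hk n hn heq
  obtain ⟨r, rfl⟩ : ∃ r, n = 2 + r := ⟨n - 2, by omega⟩
  have h₀ := widen 2 k J₀ ⟨by decide, by decide, by decide, by decide⟩ hk
  have h₁ := widen 2 k J₁ ⟨by decide, by decide, by decide, by decide⟩ hk
  have h₂ := widen 2 k L ⟨by decide, by decide, by decide, by decide⟩ hk
  have h₃ := widen 2 k L' ⟨by decide, by decide, by decide, by decide⟩ hk
  have hv := jn_mem k (2 + r)
  have hne := jn_ne hk r
  rw [← heq] at hv
  obtain ⟨m, hm, u, hu, huv⟩ := Submodule.mem_sup.1 hv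
  rw [← huv, dlr_add] at hne
  have hmA : m ∈ Algebra.adjoin ℚ {μ : StringLink k → ℚ | IsMilnor k μ} := hm.2
  -- polynomials in Milnor invariants
  have e0 : ∀ i, ev m (J₀ ++ tw i) = ev m (J₁ ++ tw i) := by
    intro i
    have hle : Algebra.adjoin ℚ {μ : StringLink k → ℚ | IsMilnor k μ} ≤
        AlgHom.equalizer
          (Pi.evalAlgHom ℚ (fun _ : StringLink k => ℚ) (mk (J₀ ++ tw i) (sl_tw hk i h₀)))
          (Pi.evalAlgHom ℚ (fun _ : StringLink k => ℚ) (mk (J₁ ++ tw i) (sl_tw hk i h₁))) := by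
      refine Algebra.adjoin_le fun μ hμ => ?_
      exact milnor_eq hk h₀ h₁ i hμ
    have := hle hmA
    rw [ev_mk _ (sl_tw hk i h₀), ev_mk _ (sl_tw hk i h₁)]
    exact this
  have e1 : ev (dlr hk r m) J₀ = ev (dlr hk r m) J₁ := dlr_agree hk r h₀ h₁ e0
  -- the invariant `u`
  have hu2 : dlr hk r u ∈ N k 2 := dlr_N hk r hu
  have f := free k hk
  have e2 : ev (dlr hk r u) L = 0 := by rw [ev_mk _ h₂]; exact hu2.2 L h₂ f.1
  have e3 : ev (dlr hk r u) L' = 0 := by rw [ev_mk _ h₃]; exact hu2.2 L' h₃ f.2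
  have r2 := relation k hk _ hu2.1
  apply hne
  rw [ev_add, ev_add]
  linarith

end Pool.Agent.Results.MP_8b9055_gt.FreeComplement
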